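import Pool.Agent.H83.AT.Targets

/-!
Modules LU and GM of board at_modules.
-/

open CategoryTheory CategoryTheory.Limits TopologicalSpace Topology Set Opposite
open CategoryTheory.Abelian (Ext)
open CategoryTheory.Abelian.Ext (mk₀)

namespace Pool.Agent.H83.AT

open Pool.Agent.H96.AL Pool.Agent.H85.AU

lemma isBas_of_map {F : Type} [Field F] {V W : Type} [AddCommGroup V] [Module F V]
    [AddCommGroup W] [Module F W] (f : V →ₗ[F] W) (hf : Function.Bijective f) {r : ℕ}
    (v : Fin r → V) (h : IsBas (F := F) (fun i => f (v i))) : IsBas (F := F) v := by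
  let e := LinearEquiv.ofBijective f hf
  refine ⟨LinearIndependent.of_comp f h.1, ?_⟩
  have h2 := h.2
  have h3 : Set.range (fun i => f (v i)) = f '' Set.range v := by
    rw [← Set.range_comp]
    rfl
  rw [h3, Submodule.span_image] at h2
  apply Submodule.map_injective_of_injective hf.1
  rw [h2, Submodule.map_top, LinearMap.range_eq_top.2 hf.2]

theorem lu (hKK : T_KK) : T_LU := by
  intro F _ X S N A
  refine ⟨?_, ?_, ?_⟩
  · intro U hSU h x hx
    obtain ⟨V, r, s, hxV, hr, hs⟩ := h x hx
    choose t ht using fun i => exists_ap_ic_of_le U A (inf_le_right : V ⊓ U ≤ U)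
      (rs A (inf_le_left : V ⊓ U ≤ V) (s i))
    refine ⟨V ⊓ U, r, t, ⟨hxV, hSU hx⟩, hr, ?_⟩
    intro y hy hyS
    apply isBas_of_map (sm (ic U A) y) (sm_ic_bij A hy.2)
    have h1 : (fun i => sm (ic U A) y (gm (cutSh U A) hy (t i))) = fun i => gm A hy.1 (s i) := by
      funext i
      rw [← gm_ap, ht, gm_rs]
    rw [h1]
    exact hs y hy.1 hyS
  · intro h x hx
    refine ⟨⊤, 0, Fin.elim0, trivial, Nat.zero_le _, ?_⟩
    intro y hy hyS
    refine ⟨linearIndependent_empty_type, ?_⟩
    rw [eq_top_iff]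
    intro g _
    rw [h y hyS g]
    exact Submodule.zero_mem _
  · intro x hx
    refine ⟨⊤, 1, fun _ => e1 F X, trivial, le_rfl, ?_⟩
    intro y hy _
    have hb := (hKK F X (ModuleCat.of F F)).1 y hy
    have hc : ∀ c : F, gm (one F X) hy (kc F X (ModuleCat.of F F) c) =
        c • gm (one F X) hy (e1 F X) := by
      intro c
      have h1 : kc F X (ModuleCat.of F F) c = c • e1 F X := by
        have h2 := map_smul (kc F X (ModuleCat.of F F)) c (1 : F)
        have h3 : (c • (1 : F)) = c := by simp
        rw [h3] at h2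
        exact h2
      rw [h1, map_smul]
    constructor
    · rw [linearIndependent_unique_iff]
      intro h0
      have h1 := hc 1
      change gm (one F X) hy (e1 F X) = 0 at h0
      rw [h0, smul_zero] at h1
      have h2 := hb.1 (h1.trans (by rw [map_zero, map_zero]; rfl) :
        gm (constSh F X (ModuleCat.of F F)) hy (kc F X (ModuleCat.of F F) (1 : F)) =
          gm (constSh F X (ModuleCat.of F F)) hy (kc F X (ModuleCat.of F F) (0 : F)))
      exact one_ne_zero h2
    · rw [eq_top_iff]
      intro g _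
      obtain ⟨c, hc'⟩ := hb.2 g
      have h1 : g = c • gm (one F X) hy (e1 F X) := by
        rw [← hc]
        exact hc'.symm
      rw [h1]
      exact Submodule.smul_mem _ _ (Submodule.subset_span ⟨0, rfl⟩)

lemma finite_stk {F : Type} [Field F] [Finite F] {X : TopCat.{0}} {Z : ℕ → Set X} {N : ℕ}
    {B : Sh F X} (hcov : ∀ x : X, ∃ j, x ∈ Z (j + 1) \ Z j) (hB : Cn Z N B) (x : X) :
    Finite (Stk B x) := by
  obtain ⟨j, hj⟩ := hcov x
  obtain ⟨V, r, s, hx, hr, hs⟩ := hB j x hj
  have h := hs x hx hj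
  let b : Module.Basis (Fin r) F (Stk B x) := Module.Basis.mk h.1 (by rw [h.2])
  exact Finite.of_equiv (Fin r → F) b.equivFun.symm.toEquiv

theorem gm_ (hKU : T_KU) (hGZ : T_GZ) : T_GM := by
  intro F _ _ X Z N B hcov hB n V x hx
  rcases n with _ | n
  · have hfin : Finite (Stk B x) := finite_stk hcov hB x
    let φ : Ext.{0} (cutSh V (one F X)) B 0 →+ Stk B x :=
      { toFun := fun α => gm B hx (ap (Abelian.Ext.homEquiv₀ α) V (eU F V))
        map_zero' := by
          have h1 : Abelian.Ext.homEquiv₀ (0 : Ext.{0} (cutSh V (one F X)) B 0) = 0 := by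
            have := (Abelian.Ext.addEquiv₀ (X := cutSh V (one F X)) (Y := B)).map_zero
            exact this
          rw [h1]
          exact map_zero (gm B hx)
        map_add' := by
          intro a b
          have h1 : Abelian.Ext.homEquiv₀ (a + b) =
              Abelian.Ext.homEquiv₀ a + Abelian.Ext.homEquiv₀ b := by
            have := (Abelian.Ext.addEquiv₀ (X := cutSh V (one F X)) (Y := B)).map_add a b
            exact this
          rw [h1]
          exact map_add (gm B hx) (ap (Abelian.Ext.homEquiv₀ a) V (eU F V))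
            (ap (Abelian.Ext.homEquiv₀ b) V (eU F V)) }
    refine ⟨Stk B x, inferInstance, hfin, φ, ?_⟩
    intro α hα
    set f := Abelian.Ext.homEquiv₀ α with hf
    have hα' : α = mk₀ f := by
      rw [hf]
      exact (Abelian.Ext.homEquiv₀.symm_apply_apply α).symm
    have h1 : gm B hx (ap f V (eU F V)) = gm B hx 0 := by
      rw [map_zero]
      exact hα
    obtain ⟨O, hO, h2, h3, e⟩ := gm_eq B hx hx _ _ h1
    refine ⟨O, hO, h2, ?_⟩
    have h4 : cutMap h2 (𝟙 (one F X)) ≫ f = 0 := by
      apply (hKU F X O B).1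
      change ap (cutMap h2 (𝟙 (one F X)) ≫ f) O (eU F O) = ap 0 O (eU F O)
      have h5 : ap (cutMap h2 (𝟙 (one F X))) O (eU F O) = rs _ h2 (eU F V) := by
        apply ap_ic_inj
        rw [← rs_ap, ap_ic_eU, rs_rs, ← ap_comp, cutMap_ic, Category.comp_id, ap_ic_eU]
      rw [ap_comp, h5, ← rs_ap, e, map_zero]
      rfl
    change (mk₀ (cutMap h2 (𝟙 (one F X)))).comp α (zero_add 0) = 0
    rw [hα', Ext.mk₀_comp_mk₀, h4, Ext.mk₀_zero]
  · exact ⟨PUnit, inferInstance, inferInstance, 0, fun α _ => hGZ F X B n V x hx α⟩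

end Pool.Agent.H83.AT
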