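import Pool.Agent.H83.AT.Targets

/-!
Modules SA, SB, DE, S1, S2 of board at_modules.
-/

open CategoryTheory CategoryTheory.Limits TopologicalSpace Topology Set Opposite
open CategoryTheory.Abelian (Ext)
open CategoryTheory.Abelian.Ext (mk₀)

namespace Pool.Agent.H83.AT

open Pool.Agent.H96.AL Pool.Agent.H85.AU

section

variable {C : Type 1} [Category.{0} C] [Abelian C] [HasExt.{0} C]

lemma comp_iso_eq_zero {A B B' : C} {n : ℕ} (x : Ext.{0} A B n) (i : B ⟶ B') [IsIso i]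
    (h : x.comp (mk₀ i) (add_zero n) = 0) : x = 0 := by
  have h1 : (x.comp (mk₀ i) (add_zero n)).comp (mk₀ (inv i)) (add_zero n) = x := by
    rw [Ext.comp_assoc_of_third_deg_zero, Ext.mk₀_comp_mk₀, IsIso.hom_inv_id, Ext.comp_mk₀_id]
  rw [← h1, h, Ext.zero_comp]

lemma iso_comp_eq_zero {A' A B : C} {n : ℕ} (x : Ext.{0} A B n) (i : A' ⟶ A) [IsIso i]
    (h : (mk₀ i).comp x (zero_add n) = 0) : x = 0 := by
  have h1 : (mk₀ (inv i)).comp ((mk₀ i).comp x (zero_add n)) (zero_add n) = x := by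
    rw [Ext.mk₀_comp_mk₀_assoc, IsIso.inv_hom_id, Ext.mk₀_id_comp]
  rw [← h1, h, Ext.comp_zero]

variable {D : Type 1} [Category.{0} D] [Abelian D] [HasExt.{0} D] [EnoughInjectives C]

/-- vanishing is transported by natural isomorphisms -/
lemma em_zero_of_iso (hEN : T_EN) {Φ Ψ : C ⥤ D} (hΦ : Exc Φ) (hΨ : Exc Ψ) (τ : Φ ≅ Ψ)
    {A B : C} {n : ℕ} (e : Ext.{0} A B n) (h : em hΨ e = 0) : em hΦ e = 0 := by
  have h1 := hEN C D Φ Ψ hΦ hΨ τ.hom A B n e
  rw [h, Ext.comp_zero] at h1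
  exact comp_iso_eq_zero _ _ h1

end

variable {F : Type} [Field F]

/-- the pullback along `w ↦ (w, t)` after the projection is the identity -/
lemma it_pr_iso (T : TopCat.{0}) (t : unitInterval) :
    Nonempty (pb F (pr T) ⋙ pb F (it T t) ≅ 𝟭 (Sh F T)) := by
  obtain ⟨a⟩ := pb_comp (F := F) (pr T) (it T t)
  obtain ⟨b⟩ := pb_id (F := F) T
  have h : it T t ≫ pr T = 𝟙 T := rfl
  rw [h] at a
  exact ⟨a ≪≫ b⟩

lemma Exc.comp {C D E : Type 1} [Category.{0} C] [Category.{0} D] [Category.{0} E]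
    [Abelian C] [Abelian D] [Abelian E] {Φ : C ⥤ D} {Ψ : D ⥤ E} (hΦ : Exc Φ) (hΨ : Exc Ψ) :
    Exc (Φ ⋙ Ψ) := by
  have := hΦ.add
  have := hΦ.lim
  have := hΦ.colim
  have := hΨ.add
  have := hΨ.lim
  have := hΨ.colim
  exact ⟨inferInstance, comp_preservesFiniteLimits Φ Ψ, comp_preservesFiniteColimits Φ Ψ⟩

lemma Exc.id (C : Type 1) [Category.{0} C] [Abelian C] : Exc (𝟭 C) :=
  ⟨inferInstance, inferInstance, inferInstance⟩

theorem sa (hPX : T_PX) (hEN : T_EN) (hEC : T_EC) (hE1 : T_E1) (hVE : T_VE) (hVC : T_VC)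
    (hFE : T_FE) (hCI : T_CI) : T_SA := by
  intro F _ X W' O hO T H hH hH1 A B hA hB n α hα h0
  have hp := hPX F T (cyl T) (pr T)
  have hH' := hPX F X (cyl T) H
  have hi1 := hPX F (cyl T) T (it T 1)
  have hi0 := hPX F (cyl T) T (it T 0)
  have hk := hPX F X T (it T 1 ≫ H)
  have iA : IsIso ((pa F (pr T)).counit.app ((pb F H).obj A)) := hVC F T _ hA
  have iB : IsIso ((pa F (pr T)).counit.app ((pb F H).obj B)) := hVC F T _ hB
  have iv : IsIso ((pb F H).map (ic W' A)) := (hCI F X (cyl T) H A W' W' le_rfl hH).2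
  -- `em hk α = 0`
  have e1 : em hk α = 0 := by
    have i1 : IsIso ((pb F (it T 1 ≫ H)).map (cutMap hO (𝟙 A))) :=
      (hCI F X T (it T 1 ≫ H) A O W' hO (fun y => hH1 y)).1
    apply iso_comp_eq_zero _ ((pb F (it T 1 ≫ H)).map (cutMap hO (𝟙 A)))
    rw [← em_mk₀ hk, ← em_comp]
    have : (mk₀ (cutMap hO (𝟙 A))).comp α (zero_add n) = 0 := hα
    rw [this, em_zero]
  -- `em hi1 (em hH' α) = 0`
  have e2 : em hi1 (em hH' α) = 0 := by
    obtain ⟨τ⟩ := pb_comp (F := F) H (it T 1)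
    rw [← hEC _ _ _ _ _ hH' hi1 (hH'.comp hi1)]
    exact em_zero_of_iso hEN _ hk τ _ e1
  set β : Ext.{0} ((pb F (pr T)).obj ((pf F (pr T)).obj ((pb F H).obj A))) ((pb F H).obj B) n :=
    (mk₀ ((pa F (pr T)).counit.app ((pb F H).obj A) ≫ inv ((pb F H).map (ic W' A)))).comp
      (em hH' α) (zero_add n) with hβ
  obtain ⟨e, he⟩ := hVE F T hp ((pb F H).obj B) (hFE F T _ hB) ((pf F (pr T)).obj
    ((pb F H).obj A)) n β
  -- `e = 0`
  have e3 : e = 0 := by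
    have h1 : em hi1 β = 0 := by
      rw [hβ, em_comp, e2, Ext.comp_zero]
    rw [he, em_comp, em_mk₀] at h1
    have h2 := comp_iso_eq_zero _ _ h1
    rw [← hEC _ _ _ _ _ hp hi1 (hp.comp hi1)] at h2
    obtain ⟨τ⟩ := it_pr_iso (F := F) T 1
    have h3 := em_zero_of_iso hEN (Exc.id _) (hp.comp hi1) τ.symm e h2
    rwa [hE1] at h3
  -- `em hH' α = 0`
  have e4 : em hH' α = 0 := by
    rw [e3, em_zero, Ext.zero_comp] at he
    exact iso_comp_eq_zero _ _ (hβ.symm.trans he)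
  obtain ⟨τ⟩ := pb_comp (F := F) H (it T 0)
  have h5 : em (hH'.comp hi0) α = 0 := by
    rw [hEC _ _ _ _ _ hH' hi0 (hH'.comp hi0), e4, em_zero]
  exact em_zero_of_iso hEN h0 (hH'.comp hi0) τ.symm α h5

theorem sb (hVC : T_VC) (hCI : T_CI) : T_SB := by
  intro F _ X O T H hH1 A B hA hB hAB
  have key : ∀ (G : Sh F X), FC ((pb F H).obj G) → ∀ t : unitInterval,
      Nonempty ((pb F (it T t ≫ H)).obj G ≅ (pf F (pr T)).obj ((pb F H).obj G)) := by
    intro G hG t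
    have iG : IsIso ((pa F (pr T)).counit.app ((pb F H).obj G)) := hVC F T _ hG
    obtain ⟨τ⟩ := pb_comp (F := F) H (it T t)
    obtain ⟨σ⟩ := it_pr_iso (F := F) T t
    exact ⟨(τ.app G).symm ≪≫ (pb F (it T t)).mapIso (asIso ((pa F (pr T)).counit.app
      ((pb F H).obj G))).symm ≪≫ σ.app ((pf F (pr T)).obj ((pb F H).obj G))⟩
  have key2 : ∀ (G : Sh F X),
      Nonempty ((pb F (it T 1 ≫ H)).obj (cutSh O G) ≅ (pb F (it T 1 ≫ H)).obj G) := by
    intro G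
    have := (hCI F X T (it T 1 ≫ H) G O O le_rfl (fun y => hH1 y)).2
    exact ⟨asIso ((pb F (it T 1 ≫ H)).map (ic O G))⟩
  obtain ⟨e⟩ := hAB
  obtain ⟨a0⟩ := key A hA 0
  obtain ⟨a1⟩ := key A hA 1
  obtain ⟨b0⟩ := key B hB 0
  obtain ⟨b1⟩ := key B hB 1
  obtain ⟨a⟩ := key2 A
  obtain ⟨b⟩ := key2 B
  exact ⟨a0 ≪≫ a1.symm ≪≫ a.symm ≪≫ (pb F (it T 1 ≫ H)).mapIso e ≪≫ b ≪≫ b1 ≪≫ b0.symm⟩

theorem de (hNI : T_NI) (hXL : T_XL) (hXC : T_XC) (hEN : T_EN) (hEC : T_EC) (hE1 : T_E1) :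
    T_DE := by
  intro F _ X W A B
  obtain ⟨τ⟩ := hNI F X W
  refine ⟨fun n β hj hβ => ?_, fun ⟨e⟩ => ?_⟩
  · have hL := hXL F X W
    have hc := hXC F X W
    have h1 : em (hj.comp hL) β = 0 := by
      rw [hEC _ _ _ _ _ hj hL (hj.comp hL), hβ, em_zero]
    have h2 : em hc β = 0 := em_zero_of_iso hEN hc (hj.comp hL) τ β h1
    have h3 := hEN _ _ _ _ hc (Exc.id _) (icN (F := F) W) _ _ n β
    rw [h2, Ext.zero_comp, hE1] at h3
    have i1 : IsIso ((icN (F := F) W).app (cutSh W A)) := by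
      change IsIso (ic W (cutSh W A))
      rw [isIso_iff]
      intro x
      by_cases hx : x ∈ W
      · exact sm_ic_bij _ hx
      · refine ⟨sm_ic_inj _ _ _, fun g => ⟨0, ?_⟩⟩
        rw [map_zero]
        exact (stk_cut_eq_zero A hx g).symm
    exact iso_comp_eq_zero _ _ h3.symm
  · exact ⟨τ.app A ≪≫ (lj F W).mapIso e ≪≫ (τ.app B).symm⟩

theorem s1 (hHM : T_HM) (hFH : T_FH) (hSA : T_SA) (hDE : T_DE) (hPX : T_PX) : T_S1 := by
  intro F _ X Z N A B hcov hA hB W W' O hO hW h hh hy n α hα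
  obtain ⟨H, hH, hH0⟩ := hHM X Z W W' h hh
  have hst : ∀ (w : osp W) (t t' : unitInterval) (j : ℕ),
      H ((w, t) : cyl (osp W)) ∈ Z j ↔ H ((w, t') : cyl (osp W)) ∈ Z j := by
    intro w t t' j
    rw [hH, hH, hh.strict w.1 w.2 t t.2 j, hh.strict w.1 w.2 t' t'.2 j]
  have h1 := hFH F X Z N A hcov hA (osp W) H hst
  have h2 := hFH F X Z N B hcov hB (osp W) H hst
  have h3 := hSA F X W' O hO (osp W) H
    (fun y => by
      have : H y = h y.1.1 y.2 := hH y.1 y.2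
      rw [this]
      exact hh.maps y.1.1 y.1.2 y.2 y.2.2)
    (fun w => by
      have : H ((w, 1) : cyl (osp W)) = h w.1 1 := hH w 1
      rw [this]
      exact hy w.1 w.2) A B h1 h2 n α hα
  rw [hH0] at h3
  have hj := hPX F X (osp W) (inc W)
  have h4 := h3 hj
  apply (hDE F X W A B).1 n _ hj
  change em hj ((mk₀ (cutMap hW (𝟙 A))).comp α (zero_add n)) = 0
  rw [em_comp, h4, Ext.comp_zero]

theorem s2 (hHM : T_HM) (hFH : T_FH) (hSB : T_SB) (hDE : T_DE) : T_S2 := by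
  intro F _ X Z N A B hcov hA hB W W' O h hh hy hAB
  obtain ⟨H, hH, hH0⟩ := hHM X Z W W' h hh
  have hst : ∀ (w : osp W) (t t' : unitInterval) (j : ℕ),
      H ((w, t) : cyl (osp W)) ∈ Z j ↔ H ((w, t') : cyl (osp W)) ∈ Z j := by
    intro w t t' j
    rw [hH, hH, hh.strict w.1 w.2 t t.2 j, hh.strict w.1 w.2 t' t'.2 j]
  have h1 := hFH F X Z N A hcov hA (osp W) H hst
  have h2 := hFH F X Z N B hcov hB (osp W) H hst
  have h3 := hSB F X O (osp W) H
    (fun w => by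
      have : H ((w, 1) : cyl (osp W)) = h w.1 1 := hH w 1
      rw [this]
      exact hy w.1 w.2) A B h1 h2 hAB
  rw [hH0] at h3
  exact (hDE F X W A B).2 h3

end Pool.Agent.H83.AT
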