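import Pool.Agent.H83.AT.Fin
import Pool.Agent.H83.AT.SA
import Pool.Agent.H83.AT.LU
import Pool.Agent.H12.AT.XC
import Pool.Agent.H18.AT.CC
import Pool.Agent.H18.AT.CG
import Pool.Agent.H20.AT.EX
import Pool.Agent.H20.AT.PS
import Pool.Agent.H31.AT.XL
import Pool.Agent.H34.AT.HM
import Pool.Agent.H34.AT.LM
import Pool.Agent.H34.AT.TL
import Pool.Agent.H37.AT.FE
import Pool.Agent.H37.AT.NI
import Pool.Agent.H37.AT.QE
import Pool.Agent.H37.AT.VC
import Pool.Agent.H4.AT.FH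
import Pool.Agent.H4.AT.GZ
import Pool.Agent.H4.AT.MV
import Pool.Agent.H4.AT.VE
import Pool.Agent.H59.AT.KK
import Pool.Agent.H59.AT.VM
import Pool.Agent.H64.AT.FS
import Pool.Agent.H64.AT.GL
import Pool.Agent.H64.AT.II
import Pool.Agent.H64.AT.VL
import Pool.Agent.H76.AT.PX
import Pool.Agent.H79.AT.CS
import Pool.Agent.H79.AT.KU
import Pool.Agent.H80.AT.CI
import Pool.Agent.H80.AT.PW
import Pool.Agent.H80.AT.UI
import Pool.Agent.H84.AT.CL
import Pool.Agent.H84.AT.TA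
import Pool.Agent.H98.AT.E

/-!
All modules of board at_modules together: `TopData` for sheaves of vector spaces.
-/

namespace Pool.Agent.H83.AT

open Pool.Agent.H96.AL Pool.Agent.H85.AU

theorem p_PS : T_PS := H20.AT.pf_PS
theorem p_SP : T_SP := H20.AT.pf_SP
theorem p_EX : T_EX := H20.AT.pf_EX
theorem p_PX : T_PX := H76.AT.px p_PS p_EX
theorem p_XC : T_XC := H12.AT.pf_XC p_EX
theorem p_XL : T_XL := H31.AT.xl p_SP p_EX
theorem p_UI : T_UI := H80.AT.UI.ui p_PS p_SP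
theorem p_NI : T_NI := H37.AT.ni p_UI
theorem p_CI : T_CI := H80.AT.ci p_PS
theorem p_MV : T_MV := H4.AT.mv
theorem p_CS : T_CS := H79.AT.cs
theorem p_KK : T_KK := H59.AT.KK.kk
theorem p_KU : T_KU := H79.AT.ku p_KK p_UI p_PS
theorem p_EI : T_EI := H98.AT.ei
theorem p_EN : T_EN := H98.AT.en p_EI
theorem p_EC : T_EC := H98.AT.ec p_EI
theorem p_E1 : T_E1 := H98.AT.e1 p_EI
theorem p_II : T_II := H64.AT.pf_II
theorem p_TL : T_TL := H34.AT.tl
theorem p_GL : T_GL := H64.AT.pf_GL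
theorem p_FE : T_FE := H37.AT.fe p_II p_GL p_TL
theorem p_FS : T_FS := H64.AT.pf_FS
theorem p_VL : T_VL := H64.AT.pf_VL p_II p_GL p_TL
theorem p_VM : T_VM := H59.AT.VM.vm p_VL
theorem p_QE : T_QE := H37.AT.qe p_KU
theorem p_VC : T_VC := H37.AT.vc p_PS p_FE p_FS p_TL
theorem p_VE : T_VE := H4.AT.ve p_EI p_VM p_QE
theorem p_FH : T_FH := H4.AT.fh p_PS
theorem p_HM : T_HM := H34.AT.hm
theorem p_SA : T_SA := sa p_PX p_EN p_EC p_E1 p_VE p_VC p_FE p_CI
theorem p_SB : T_SB := sb p_VC p_CI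
theorem p_DE : T_DE := de p_NI p_XL p_XC p_EN p_EC p_E1
theorem p_S1 : T_S1 := s1 p_HM p_FH p_SA p_DE p_PX
theorem p_S2 : T_S2 := s2 p_HM p_FH p_SB p_DE
theorem p_LM : T_LM := H34.AT.lm
theorem p_PW : T_PW := H80.AT.pw_
theorem p_CL : T_CL := H84.AT.cl p_XC p_KK p_KU p_PW
theorem p_GZ : T_GZ := H4.AT.gz p_EI p_KU
theorem p_TA : T_TA := H84.AT.ta p_PS p_KK
theorem p_LU : T_LU := lu p_KK
theorem p_CC : T_CC := H18.AT.cc p_LU
theorem p_CG : T_CG := H18.AT.cg p_LU p_LM p_CC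
theorem p_GM : T_GM := gm_ p_KU p_GZ

/-- `TopData` for sheaves of vector spaces over a finite field -/
noncomputable def shTop (F : Type) [Field F] [Finite F] {X : TopCat.{0}} {m : ℕ} {Z : ℕ → Set X}
    (hA : ATI m Z) : TopData.{0} X (Sh F X) hA.closed hA.mono :=
  topData F p_XC p_MV p_CS p_LM p_LU p_CC p_CG p_CL p_GM p_S1 p_S2 hA

theorem shTop_con (F : Type) [Field F] [Finite F] {X : TopCat.{0}} {m : ℕ} {Z : ℕ → Set X}
    (hA : ATI m Z) (N : ℕ) (A : Sh F X)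
    (h : ∀ j, IsLocalSystem F (restr F A (Z (j + 1) \ Z j)) N) : (shTop F hA).Con N A :=
  topData_con F p_XC p_MV p_CS p_LM p_LU p_CC p_CG p_CL p_GM p_S1 p_S2 p_TA hA N A h

end Pool.Agent.H83.AT
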