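import Pool.Agent.H85.AU.Defs

/-!
Elementwise API for sheaves of `F`-vector spaces.
`Sec A V` sections, `Stk A x` stalk, `gm A hx` germ, `rs A h` restriction, `ap f V` a morphism on
sections, `sm f x` a morphism on stalks.
-/

open CategoryTheory CategoryTheory.Limits TopologicalSpace Topology Set Opposite

namespace Pool.Agent.H83.AT

open Pool.Agent.H96.AL

variable {F : Type} [Field F] {X : TopCat.{0}}

/-- sections of `A` over `V` -/
abbrev Sec (A : Sh F X) (V : Opens X) : Type := A.1.obj (op V)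

/-- the stalk of `A` at `x` -/
abbrev Stk (A : Sh F X) (x : X) : Type := (TopCat.Presheaf.stalk A.1 x : ModuleCat.{0} F)

/-- germ -/
noncomputable def gm (A : Sh F X) {V : Opens X} {x : X} (hx : x ∈ V) : Sec A V →ₗ[F] Stk A x :=
  (TopCat.Presheaf.germ A.1 V x hx).hom

/-- restriction -/
noncomputable def rs (A : Sh F X) {U V : Opens X} (h : U ≤ V) : Sec A V →ₗ[F] Sec A U :=
  (A.1.map (homOfLE h).op).hom

/-- a morphism on sections -/
noncomputable def ap {A B : Sh F X} (f : A ⟶ B) (V : Opens X) : Sec A V →ₗ[F] Sec B V :=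
  (f.1.app (op V)).hom

/-- a morphism on stalks -/
noncomputable def sm {A B : Sh F X} (f : A ⟶ B) (x : X) : Stk A x →ₗ[F] Stk B x :=
  ((TopCat.Presheaf.stalkFunctor (ModuleCat.{0} F) x).map f.1).hom

/-- the stalk functor on sheaves -/
noncomputable abbrev stF (F : Type) [Field F] {X : TopCat.{0}} (x : X) : Sh F X ⥤ ModuleCat.{0} F :=
  TopCat.Sheaf.forget (ModuleCat.{0} F) X ⋙ TopCat.Presheaf.stalkFunctor (ModuleCat.{0} F) x

lemma gm_rs (A : Sh F X) {U V : Opens X} (h : U ≤ V) {x : X} (hx : x ∈ U) (s : Sec A V) :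
    gm A hx (rs A h s) = gm A (h hx) s :=
  TopCat.Presheaf.germ_res_apply A.1 (homOfLE h) x hx s

lemma rs_rs (A : Sh F X) {U V W : Opens X} (h : U ≤ V) (h' : V ≤ W) (s : Sec A W) :
    rs A h (rs A h' s) = rs A (h.trans h') s := by
  have := A.1.map_comp (homOfLE h').op (homOfLE h).op
  have h2 := congrArg (fun f => f.hom s) this
  exact h2.symm

lemma rs_self (A : Sh F X) {U : Opens X} (h : U ≤ U) (s : Sec A U) : rs A h s = s := by
  have := A.1.map_id (op U)
  exact congrArg (fun f => f.hom s) this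

lemma gm_ap {A B : Sh F X} (f : A ⟶ B) {V : Opens X} {x : X} (hx : x ∈ V) (s : Sec A V) :
    gm B hx (ap f V s) = sm f x (gm A hx s) :=
  (TopCat.Presheaf.stalkFunctor_map_germ_apply V x hx f.1 s).symm

lemma rs_ap {A B : Sh F X} (f : A ⟶ B) {U V : Opens X} (h : U ≤ V) (s : Sec A V) :
    rs B h (ap f V s) = ap f U (rs A h s) := by
  have := f.1.naturality (homOfLE h).op
  exact (congrArg (fun f => f.hom s) this).symm

lemma ap_comp {A B C : Sh F X} (f : A ⟶ B) (g : B ⟶ C) (V : Opens X) (s : Sec A V) :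
    ap (f ≫ g) V s = ap g V (ap f V s) := rfl

lemma ap_id (A : Sh F X) (V : Opens X) (s : Sec A V) : ap (𝟙 A) V s = s := rfl

lemma sm_comp {A B C : Sh F X} (f : A ⟶ B) (g : B ⟶ C) (x : X) (s : Stk A x) :
    sm (f ≫ g) x s = sm g x (sm f x s) := by
  have := (TopCat.Presheaf.stalkFunctor (ModuleCat.{0} F) x).map_comp f.1 g.1
  exact congrArg (fun f => f.hom s) this

lemma sm_id (A : Sh F X) (x : X) (s : Stk A x) : sm (𝟙 A) x s = s := by
  have := (TopCat.Presheaf.stalkFunctor (ModuleCat.{0} F) x).map_id A.1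
  exact congrArg (fun f => f.hom s) this

/-- every element of the stalk is a germ -/
lemma exists_gm (A : Sh F X) {x : X} (g : Stk A x) :
    ∃ (V : Opens X) (hx : x ∈ V) (s : Sec A V), gm A hx s = g := by
  obtain ⟨U, m, s, h⟩ := TopCat.Presheaf.exists_germ_eq A.1 g
  exact ⟨U, m, s, h⟩

/-- every element of the stalk is the germ of a section over a small set -/
lemma exists_gm_le (A : Sh F X) {x : X} (g : Stk A x) {U : Opens X} (hU : x ∈ U) :
    ∃ (V : Opens X) (hx : x ∈ V) (_ : V ≤ U) (s : Sec A V), gm A hx s = g := by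
  obtain ⟨V, hx, s, h⟩ := exists_gm A g
  exact ⟨V ⊓ U, ⟨hx, hU⟩, inf_le_right, rs A inf_le_left s, by rw [gm_rs, h]⟩

/-- sections with the same germ at `x` agree near `x` -/
lemma gm_eq (A : Sh F X) {U V : Opens X} {x : X} (hU : x ∈ U) (hV : x ∈ V) (s : Sec A U)
    (t : Sec A V) (h : gm A hU s = gm A hV t) :
    ∃ (W : Opens X) (_ : x ∈ W) (h1 : W ≤ U) (h2 : W ≤ V), rs A h1 s = rs A h2 t := by
  obtain ⟨W, m, i, j, e⟩ := TopCat.Presheaf.germ_eq A.1 x hU hV s t h
  exact ⟨W, m, leOfHom i, leOfHom j, e⟩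

/-- sections are equal if all germs are equal -/
lemma sec_ext (A : Sh F X) {V : Opens X} (s t : Sec A V)
    (h : ∀ (x : X) (hx : x ∈ V), gm A hx s = gm A hx t) : s = t :=
  TopCat.Presheaf.section_ext A V s t h

/-- gluing of sections with compatible germs -/
lemma glue (A : Sh F X) {ι : Type} (U : ι → Opens X) (s : ∀ i, Sec A (U i)) (V : Opens X)
    (hV : ∀ i, U i ≤ V) (hc : V ≤ iSup U)
    (h : ∀ i j (x : X) (hi : x ∈ U i) (hj : x ∈ U j), gm A hi (s i) = gm A hj (s j)) :
    ∃ t : Sec A V, ∀ i (x : X) (hi : x ∈ U i), gm A (hV i hi) t = gm A hi (s i) := by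
  obtain ⟨t, ht, -⟩ := TopCat.Sheaf.existsUnique_gluing' A U V (fun i => homOfLE (hV i)) hc s
    (by
      intro i j
      apply TopCat.Presheaf.section_ext A
      intro x hx
      have := h i j x hx.1 hx.2
      have h1 := gm_rs A (inf_le_left : U i ⊓ U j ≤ U i) hx (s i)
      have h2 := gm_rs A (inf_le_right : U i ⊓ U j ≤ U j) hx (s j)
      exact (h1.trans this).trans h2.symm)
  refine ⟨t, fun i x hi => ?_⟩
  rw [← gm_rs A (hV i) hi t]
  exact congrArg _ (ht i)

/-- gluing of two sections -/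
lemma glue2 (A : Sh F X) {U V : Opens X} (s : Sec A U) (t : Sec A V)
    (h : ∀ (x : X) (hU : x ∈ U) (hV : x ∈ V), gm A hU s = gm A hV t) :
    ∃ u : Sec A (U ⊔ V), (∀ (x : X) (hU : x ∈ U), gm A (le_sup_left (a := U) hU) u = gm A hU s) ∧
      ∀ (x : X) (hV : x ∈ V), gm A (le_sup_right (b := V) hV) u = gm A hV t := by
  obtain ⟨u, hu⟩ := glue A (fun b : Bool => if b then U else V)
    (fun b => match b with | true => s | false => t) (U ⊔ V)
    (by rintro (_ | _) <;> simp)
    (by
      refine sup_le ?_ ?_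
      · exact le_iSup (fun b : Bool => if b then U else V) true
      · exact le_iSup (fun b : Bool => if b then U else V) false)
    (by
      rintro (_ | _) (_ | _) x hi hj
      · rfl
      · exact (h x hj hi).symm
      · exact h x hi hj
      · rfl)
  exact ⟨u, fun x hx => hu true x hx, fun x hx => hu false x hx⟩

/-- morphisms are equal if they are equal on stalks -/
lemma hom_ext {A B : Sh F X} (f g : A ⟶ B) (h : ∀ x s, sm f x s = sm g x s) : f = g := by
  apply Sheaf.hom_ext
  apply NatTrans.ext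
  funext V
  induction V with | op V => ?_
  apply ModuleCat.hom_ext
  apply LinearMap.ext
  intro s
  apply sec_ext B
  intro x hx
  have h1 := gm_ap f hx s
  have h2 := gm_ap g hx s
  exact h1.trans ((h x _).trans h2.symm)

/-- morphisms are equal if they are equal on sections -/
lemma hom_ext' {A B : Sh F X} (f g : A ⟶ B) (h : ∀ V s, ap f V s = ap g V s) : f = g := by
  apply Sheaf.hom_ext
  apply NatTrans.ext
  funext V
  induction V with | op V => ?_
  apply ModuleCat.hom_ext
  apply LinearMap.ext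
  intro s
  exact h V s

lemma isIso_iff {A B : Sh F X} (f : A ⟶ B) : IsIso f ↔ ∀ x, Function.Bijective (sm f x) := by
  rw [TopCat.Presheaf.isIso_iff_stalkFunctor_map_iso f]
  refine forall_congr' fun x => ?_
  exact ConcreteCategory.isIso_iff_bijective _

lemma mono_iff {A B : Sh F X} (f : A ⟶ B) : Mono f ↔ ∀ x, Function.Injective (sm f x) := by
  rw [TopCat.Presheaf.mono_iff_stalk_mono f]
  refine forall_congr' fun x => ?_
  exact ModuleCat.mono_iff_injective _

lemma epi_iff {A B : Sh F X} (f : A ⟶ B) : Epi f ↔ ∀ x, Function.Surjective (sm f x) := by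
  constructor
  · intro h x
    have : Epi ((stF F x).map f) := inferInstance
    exact (ModuleCat.epi_iff_surjective _).mp this
  · intro h
    rw [← TopCat.Sheaf.isLocallySurjective_iff_epi f,
      TopCat.Presheaf.locally_surjective_iff_surjective_on_stalks]
    exact h

/-- short exactness is tested on stalks -/
lemma shortExact_iff {A B C : Sh F X} (f : A ⟶ B) (g : B ⟶ C) (w : f ≫ g = 0) :
    (ShortComplex.mk f g w).ShortExact ↔ (∀ x, Function.Injective (sm f x)) ∧
      (∀ x, Function.Surjective (sm g x)) ∧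
      ∀ x (s : Stk B x), sm g x s = 0 → ∃ t : Stk A x, sm f x t = s := by
  have key : (ShortComplex.mk f g w).Exact ↔
      ∀ x (s : Stk B x), sm g x s = 0 → ∃ t : Stk A x, sm f x t = s := by
    rw [TopCat.Sheaf.exact_iff_stalkFunctor_map_exact]
    refine forall_congr' fun x => ?_
    rw [ShortComplex.moduleCat_exact_iff]
    rfl
  constructor
  · intro h
    exact ⟨(mono_iff f).1 h.mono_f, (epi_iff g).1 h.epi_g, key.1 h.exact⟩
  · rintro ⟨h1, h2, h3⟩
    have := (mono_iff f).2 h1
    have := (epi_iff g).2 h2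
    exact ShortComplex.ShortExact.mk (key.2 h3)

end Pool.Agent.H83.AT
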