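import Pool.Agent.H83.AT.Base

/-!
Extension by zero `A_U` as an explicit subsheaf of `A`.
-/

open CategoryTheory CategoryTheory.Limits TopologicalSpace Topology Set Opposite

namespace Pool.Agent.H83.AT

open Pool.Agent.H96.AL

variable {F : Type} [Field F] {X : TopCat.{0}}

/-- `A_U(V)`: sections of `A` over `V` whose germs outside `U` vanish -/
def cutSec (U : Opens X) (A : Sh F X) (V : Opens X) : Submodule F (Sec A V) where
  carrier := {s | ∀ (x : X) (hx : x ∈ V), x ∉ U → gm A hx s = 0}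
  add_mem' := by
    intro a b ha hb x hx hU
    rw [map_add, ha x hx hU, hb x hx hU, add_zero]
  zero_mem' := by
    intro x hx hU
    rw [map_zero]
  smul_mem' := by
    intro c a ha x hx hU
    rw [map_smul, ha x hx hU, smul_zero]

lemma mem_cutSec {U : Opens X} {A : Sh F X} {V : Opens X} {s : Sec A V} :
    s ∈ cutSec U A V ↔ ∀ (x : X) (hx : x ∈ V), x ∉ U → gm A hx s = 0 := Iff.rfl

lemma rs_mem_cutSec {U : Opens X} {A : Sh F X} {V W : Opens X} (h : W ≤ V) {s : Sec A V}
    (hs : s ∈ cutSec U A V) : rs A h s ∈ cutSec U A W := by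
  intro x hx hU
  rw [gm_rs]
  exact hs x _ hU

/-- the presheaf `A_U` -/
noncomputable def cutPre (U : Opens X) (A : Sh F X) : TopCat.Presheaf (ModuleCat.{0} F) X where
  obj V := ModuleCat.of F (cutSec U A V.unop)
  map {V W} i := ModuleCat.ofHom ((rs A (leOfHom i.unop)).restrict
    (fun s hs => rs_mem_cutSec (leOfHom i.unop) hs))
  map_id V := by
    apply ModuleCat.hom_ext
    apply LinearMap.ext
    intro s
    apply Subtype.ext
    exact rs_self A _ _
  map_comp {V W T} i j := by
    apply ModuleCat.hom_ext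
    apply LinearMap.ext
    intro s
    apply Subtype.ext
    exact (rs_rs A (leOfHom j.unop) (leOfHom i.unop) s.1).symm

lemma cutPre_isSheaf (U : Opens X) (A : Sh F X) : TopCat.Presheaf.IsSheaf (cutPre U A) := by
  rw [TopCat.Presheaf.isSheaf_iff_isSheafUniqueGluing]
  intro ι W sf hsf
  obtain ⟨t, ht, hu⟩ := TopCat.Sheaf.existsUnique_gluing A W (fun i => (sf i).1)
    (fun i j => congrArg Subtype.val (hsf i j))
  have hmem : t ∈ cutSec U A (iSup W) := by
    intro x hx hU
    obtain ⟨i, hi⟩ := Opens.mem_iSup.1 hx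
    have h1 := gm_rs A (le_iSup W i) hi t
    rw [← h1]
    have h2 : rs A (le_iSup W i) t = (sf i).1 := ht i
    rw [h2]
    exact (sf i).2 x hi hU
  refine ⟨⟨t, hmem⟩, fun i => Subtype.ext (ht i), ?_⟩
  intro t' ht'
  apply Subtype.ext
  apply hu
  intro i
  exact congrArg Subtype.val (ht' i)

/-- the sheaf `A_U` -/
noncomputable def cutSh (U : Opens X) (A : Sh F X) : Sh F X := ⟨cutPre U A, cutPre_isSheaf U A⟩

/-- `A_U → A` -/
noncomputable def ic (U : Opens X) (A : Sh F X) : cutSh U A ⟶ A :=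
  ⟨{ app := fun V => ModuleCat.ofHom (cutSec U A V.unop).subtype
     naturality := by
       intro V W i
       rfl }⟩

lemma ap_ic_mem (U : Opens X) (A : Sh F X) {V : Opens X} (s : Sec (cutSh U A) V) :
    ap (ic U A) V s ∈ cutSec U A V := s.2

lemma ap_ic_inj (U : Opens X) (A : Sh F X) {V : Opens X} {s t : Sec (cutSh U A) V}
    (h : ap (ic U A) V s = ap (ic U A) V t) : s = t := Subtype.ext h

lemma exists_ap_ic (U : Opens X) (A : Sh F X) {V : Opens X} {s : Sec A V}
    (h : s ∈ cutSec U A V) : ∃ t : Sec (cutSh U A) V, ap (ic U A) V t = s := ⟨⟨s, h⟩, rfl⟩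

lemma exists_ap_ic_of_le (U : Opens X) (A : Sh F X) {V : Opens X} (hV : V ≤ U) (s : Sec A V) :
    ∃ t : Sec (cutSh U A) V, ap (ic U A) V t = s :=
  exists_ap_ic U A (fun _ hx hU => absurd (hV hx) hU)

lemma sm_ic_inj (U : Opens X) (A : Sh F X) (x : X) : Function.Injective (sm (ic U A) x) := by
  rw [← LinearMap.ker_eq_bot, LinearMap.ker_eq_bot']
  intro g hg
  obtain ⟨V, hx, s, rfl⟩ := exists_gm _ g
  rw [← gm_ap] at hg
  obtain ⟨W, hW, h1, h2, e⟩ := gm_eq A hx hx (ap (ic U A) V s) 0 (by rw [hg, map_zero])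
  rw [map_zero, rs_ap] at e
  have : rs (cutSh U A) h1 s = 0 := ap_ic_inj U A (by rw [e, map_zero])
  rw [← gm_rs _ h1 hW, this, map_zero]

lemma sm_ic_surj {U : Opens X} (A : Sh F X) {x : X} (hU : x ∈ U) :
    Function.Surjective (sm (ic U A) x) := by
  intro g
  obtain ⟨V, hx, hV, s, rfl⟩ := exists_gm_le A g hU
  obtain ⟨t, ht⟩ := exists_ap_ic_of_le U A hV s
  exact ⟨gm _ hx t, by rw [← gm_ap, ht]⟩

lemma sm_ic_bij {U : Opens X} (A : Sh F X) {x : X} (hU : x ∈ U) :
    Function.Bijective (sm (ic U A) x) := ⟨sm_ic_inj U A x, sm_ic_surj A hU⟩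

lemma stk_cut_eq_zero {U : Opens X} (A : Sh F X) {x : X} (hU : x ∉ U) (g : Stk (cutSh U A) x) :
    g = 0 := by
  obtain ⟨V, hx, s, rfl⟩ := exists_gm _ g
  apply sm_ic_inj U A x
  rw [← gm_ap, map_zero]
  exact ap_ic_mem U A s x hx hU

/-- a morphism `A → B` whose image has germs zero outside `U` factors through `B_U` -/
noncomputable def cutLift (U : Opens X) {A B : Sh F X} (f : A ⟶ B)
    (h : ∀ V (s : Sec A V), ap f V s ∈ cutSec U B V) : A ⟶ cutSh U B :=
  ⟨{ app := fun V => ModuleCat.ofHom ((ap f V.unop).codRestrict (cutSec U B V.unop) (h V.unop))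
     naturality := by
       intro V W i
       apply ModuleCat.hom_ext
       apply LinearMap.ext
       intro s
       apply Subtype.ext
       exact (rs_ap f (leOfHom i.unop) s).symm }⟩

lemma cutLift_ic (U : Opens X) {A B : Sh F X} (f : A ⟶ B)
    (h : ∀ V (s : Sec A V), ap f V s ∈ cutSec U B V) : cutLift U f h ≫ ic U B = f := rfl

instance ic_mono (U : Opens X) (A : Sh F X) : Mono (ic U A) := (mono_iff _).2 (sm_ic_inj U A)

lemma cutMap_aux {U V : Opens X} (h : U ≤ V) {A B : Sh F X} (f : A ⟶ B) (W : Opens X)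
    (s : Sec (cutSh U A) W) : ap (ic U A ≫ f) W s ∈ cutSec V B W := by
  intro x hx hV
  rw [ap_comp, gm_ap, ap_ic_mem U A s x hx (fun hU => hV (h hU)), map_zero]

/-- `A_U → B_V` for `U ⊆ V` and `A → B` -/
noncomputable def cutMap {U V : Opens X} (h : U ≤ V) {A B : Sh F X} (f : A ⟶ B) :
    cutSh U A ⟶ cutSh V B := cutLift V (ic U A ≫ f) (cutMap_aux h f)

@[reassoc (attr := simp)]
lemma cutMap_ic {U V : Opens X} (h : U ≤ V) {A B : Sh F X} (f : A ⟶ B) :
    cutMap h f ≫ ic V B = ic U A ≫ f := rfl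

/-- the functor `(U, A) ↦ A_U` -/
noncomputable def cut (F : Type) [Field F] (X : TopCat.{0}) : Opens X ⥤ Sh F X ⥤ Sh F X where
  obj U :=
    { obj := fun A => cutSh U A
      map := fun f => cutMap le_rfl f
      map_id := fun A => by
        rw [← cancel_mono (ic U A)]
        simp
      map_comp := fun {A B C} f g => by
        rw [← cancel_mono (ic U C)]
        simp }
  map i :=
    { app := fun A => cutMap (leOfHom i) (𝟙 A)
      naturality := fun A B f => by
        rw [← cancel_mono (ic _ B)]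
        simp }
  map_id U := by
    ext A : 2
    rw [← cancel_mono (ic U A)]
    simp
  map_comp {U V W} i j := by
    ext A : 2
    rw [← cancel_mono (ic W A)]
    simp

/-- `A_U → A` as a natural transformation -/
noncomputable def icN (U : Opens X) : (cut F X).obj U ⟶ 𝟭 (Sh F X) where
  app A := ic U A
  naturality A B f := by
    dsimp [cut]

end Pool.Agent.H83.AT
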