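import Pool.Agent.H83.AT.Pull

/-!
Definitions for the topological half of MP_c9ef16_gt (sheaf part).
-/

open CategoryTheory CategoryTheory.Limits TopologicalSpace Topology Set Opposite

namespace Pool.Agent.H83.AT

open Pool.Agent.H96.AL

variable {F : Type} [Field F] {X Y Z : TopCat.{0}}

/-! ### stalks of pullback and pushforward -/

/-- `(f_* G)_{f y} → G_y` -/
noncomputable def sp (f : Y ⟶ X) (G : Sh F Y) (y : Y) : Stk ((pf F f).obj G) (f y) →ₗ[F] Stk G y :=
  (TopCat.Presheaf.stalkPushforward (ModuleCat.{0} F) f G.1 y).hom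

lemma sp_gm (f : Y ⟶ X) (G : Sh F Y) (y : Y) {V : Opens X} (hy : f y ∈ V)
    (s : Sec G (pre f V)) :
    sp f G y (gm ((pf F f).obj G) (V := V) hy s) = gm G (V := pre f V) (x := y) hy s := by
  have h := TopCat.Presheaf.stalkPushforward_germ (ModuleCat.{0} F) f G.1 V y hy
  exact congrArg (fun k => k.hom s) h

/-- `A_{f y} → (f^* A)_y` -/
noncomputable def sg (f : Y ⟶ X) (A : Sh F X) (y : Y) :
    Stk A (f y) →ₗ[F] Stk ((pb F f).obj A) y :=
  (sp f ((pb F f).obj A) y).comp (sm ((pa F f).unit.app A) (f y))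

lemma sg_gm (f : Y ⟶ X) (A : Sh F X) (y : Y) {V : Opens X} (hy : f y ∈ V) (s : Sec A V) :
    sg f A y (gm A hy s) = gm ((pb F f).obj A) (V := pre f V) (x := y) hy (ps f A V s) := by
  have h1 := gm_ap ((pa F f).unit.app A) hy s
  have h2 := sp_gm f ((pb F f).obj A) y hy (ps f A V s)
  exact (congrArg (sp f ((pb F f).obj A) y) h1).symm.trans h2

lemma sg_nat (f : Y ⟶ X) {A B : Sh F X} (φ : A ⟶ B) (y : Y) (g : Stk A (f y)) :
    sm ((pb F f).map φ) y (sg f A y g) = sg f B y (sm φ (f y) g) := by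
  obtain ⟨V, hx, s, rfl⟩ := exists_gm A g
  rw [sg_gm, gm_ps_nat, ← gm_ap, sg_gm]

/-- the stalks of `Φ A` are naturally isomorphic to stalks of `A`, or zero -/
def StalkLike (Φ : Sh F X ⥤ Sh F Y) : Prop :=
  ∀ y : Y, (∀ (A : Sh F X) (g : Stk (Φ.obj A) y), g = 0) ∨
    ∃ (x : X) (e : ∀ A : Sh F X, Stk A x ≃ₗ[F] Stk (Φ.obj A) y),
      ∀ (A B : Sh F X) (φ : A ⟶ B) (g : Stk A x), sm (Φ.map φ) y (e A g) = e B (sm φ x g)

/-! ### an open subset -/

/-- an open subset as a space -/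
abbrev osp (U : Opens X) : TopCat.{0} := TopCat.of U

/-- the inclusion of an open subset -/
noncomputable def inc (U : Opens X) : osp U ⟶ X :=
  TopCat.ofHom ⟨(Subtype.val : U → X), continuous_subtype_val⟩

/-- extension by zero of sheaves on `U` -/
noncomputable def lj (F : Type) [Field F] {X : TopCat.{0}} (U : Opens X) :
    Sh F (osp U) ⥤ Sh F X := pf F (inc U) ⋙ (cut F X).obj U

/-! ### constant sheaf -/

/-- `V → Γ(X, V_X)` -/
noncomputable def kc (F : Type) [Field F] (X : TopCat.{0}) (V : ModuleCat.{0} F) :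
    V →ₗ[F] Sec (constSh F X V) ⊤ :=
  ((constantSheafAdj (Opens.grothendieckTopology X) (ModuleCat.{0} F)
    (isTerminalTop : IsTerminal (⊤ : Opens X))).unit.app V).hom

/-- the constant sheaf `F` -/
noncomputable def one (F : Type) [Field F] (X : TopCat.{0}) : Sh F X :=
  constSh F X (ModuleCat.of F F)

/-- the unit section of the constant sheaf -/
noncomputable def e1 (F : Type) [Field F] (X : TopCat.{0}) : Sec (one F X) ⊤ :=
  kc F X (ModuleCat.of F F) (1 : F)

/-- the unit section of `F_U` over `U` -/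
noncomputable def eU (F : Type) [Field F] {X : TopCat.{0}} (U : Opens X) :
    Sec (cutSh U (one F X)) U :=
  (⟨rs (one F X) (le_top : U ≤ ⊤) (e1 F X), fun _ hx hU => absurd hx hU⟩ :
    cutSec U (one F X) U)

lemma ap_ic_eU (U : Opens X) :
    ap (ic U (one F X)) U (eU F U) = rs (one F X) (le_top : U ≤ ⊤) (e1 F X) := rfl

/-! ### the cylinder -/

/-- `W × [0,1]` -/
abbrev cyl (W : TopCat.{0}) : TopCat.{0} := TopCat.of (W × unitInterval)

/-- the projection -/
noncomputable def pr (W : TopCat.{0}) : cyl W ⟶ W := TopCat.ofHom ⟨Prod.fst, continuous_fst⟩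

/-- `w ↦ (w, t)` -/
noncomputable def it (W : TopCat.{0}) (t : unitInterval) : W ⟶ cyl W :=
  TopCat.ofHom ⟨fun w => (w, t), by fun_prop⟩

/-- germs extend along the fibres -/
def PE {W : TopCat.{0}} (G : Sh F (cyl W)) : Prop :=
  ∀ (w : W) (t : unitInterval) (g : Stk G ((w, t) : cyl W)),
    ∃ (N : Opens W) (_ : w ∈ N) (s : Sec G (pre (pr W) N)),
      ∀ h : ((w, t) : cyl W) ∈ pre (pr W) N, gm G h s = g

/-- `G` is constant along the fibres -/
def FC {W : TopCat.{0}} (G : Sh F (cyl W)) : Prop :=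
  ∀ (w : W) (t : unitInterval), ∃ J : Set unitInterval, IsOpen J ∧ t ∈ J ∧
    ∀ t' ∈ J, ∀ g : Stk G ((w, t') : cyl W),
      ∃ (O : Opens (cyl W)) (s : Sec G O), (∀ u ∈ J, ((w, u) : cyl W) ∈ O) ∧
        (∀ h : ((w, t') : cyl W) ∈ O, gm G h s = g) ∧
        (g ≠ 0 → ∀ u ∈ J, ∀ h : ((w, u) : cyl W) ∈ O, gm G h s ≠ 0)

/-! ### constructible sheaves -/

/-- `v` is a basis -/
def IsBas {V : Type} [AddCommGroup V] [Module F V] {r : ℕ} (v : Fin r → V) : Prop :=
  LinearIndependent F v ∧ Submodule.span F (Set.range v) = ⊤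

/-- near every point of `S`, there are at most `N` sections of `A` whose germs are bases of the
stalks along `S` -/
def LB (S : Set X) (N : ℕ) (A : Sh F X) : Prop :=
  ∀ x ∈ S, ∃ (V : Opens X) (r : ℕ) (s : Fin r → Sec A V), x ∈ V ∧ r ≤ N ∧
    ∀ (y : X) (hy : y ∈ V), y ∈ S → IsBas (F := F) (fun i => gm A hy (s i))

/-- constructible sheaves of rank `≤ N` -/
def Cn (Z : ℕ → Set X) (N : ℕ) (A : Sh F X) : Prop := ∀ j : ℕ, LB (Z (j + 1) \ Z j) N A

/-- the sheaf is concentrated on `S` -/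
def Conc (S : Set X) (A : Sh F X) : Prop := ∀ x ∉ S, ∀ g : Stk A x, g = 0

/-! ### Ext -/

/-- restriction `Ext^n(A_V, B) → Ext^n(A_U, B)` -/
noncomputable def rsE (A B : Sh F X) (n : ℕ) {U V : Opens X} (h : U ≤ V)
    (α : Abelian.Ext.{0} (cutSh V A) B n) : Abelian.Ext.{0} (cutSh U A) B n :=
  (Abelian.Ext.mk₀ (cutMap h (𝟙 A))).comp α (zero_add n)

/-- `Φ` is exact -/
structure Exc {C D : Type 1} [Category.{0} C] [Category.{0} D] [Abelian C] [Abelian D]
    (Φ : C ⥤ D) : Prop where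
  add : Φ.Additive
  lim : PreservesFiniteLimits Φ
  colim : PreservesFiniteColimits Φ

/-- the map induced by an exact functor on `Ext` -/
noncomputable def em {C D : Type 1} [Category.{0} C] [Category.{0} D] [Abelian C] [Abelian D]
    [HasExt.{0} C] [HasExt.{0} D] {Φ : C ⥤ D} (hΦ : Exc Φ) {A B : C} {n : ℕ}
    (e : Abelian.Ext.{0} A B n) : Abelian.Ext.{0} (Φ.obj A) (Φ.obj B) n :=
  haveI := hΦ.add
  haveI := hΦ.lim
  haveI := hΦ.colim
  e.mapExactFunctor Φ

end Pool.Agent.H83.AT
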