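import Pool.Agent.H83.AT.Targets

/-!
Assembly: `TopData` for sheaves of vector spaces on a space with strict homotopies.
-/

open CategoryTheory CategoryTheory.Limits TopologicalSpace Topology Set Opposite
open CategoryTheory.Abelian (Ext)
open CategoryTheory.Abelian.Ext (mk₀)

namespace Pool.Agent.H83.AT

open Pool.Agent.H96.AL Pool.Agent.H85.AU

variable (F : Type) [Field F] (X : TopCat.{0})

/-- `CutSys` for sheaves -/
noncomputable def shCut (hXC : T_XC) (hMV : T_MV) (hCS : T_CS) : CutSys X (Sh F X) where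
  cut := cut F X
  top := @asIso _ _ _ _ (icN (F := F) (⊤ : Opens X)) (hCS F X).1
  lim U := (hXC F X U).lim
  colim U := (hXC F X U).colim
  add U := (hXC F X U).add
  mv U V A := hMV F X U V A
  mono {U V} h A := by
    have h1 : cutMap h (𝟙 A) ≫ ic V A = ic U A := by rw [cutMap_ic, Category.comp_id]
    have h2 : Mono (cutMap h (𝟙 A) ≫ ic V A) := h1 ▸ ic_mono U A
    exact mono_of_mono (cutMap h (𝟙 A)) (ic V A)
  bot A := (hCS F X).2.1 A
  res {U V} h A := by
    have h1 := (hCS F X).2.2.1 U V h A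
    have h2 : cutMap (le_top : V ≤ ⊤) (𝟙 A) ≫ ic ⊤ A = ic V A := by
      rw [cutMap_ic, Category.comp_id]
    have h3 : (cutMap (le_refl U) (cutMap (le_top : V ≤ ⊤) (𝟙 A) ≫ ic ⊤ A)) =
        cutMap (le_refl U) (ic V A) := by rw [h2]
    have h4 : IsIso (cutMap (le_refl U) (cutMap (le_top : V ≤ ⊤) (𝟙 A) ≫ ic ⊤ A)) := by
      rw [h3]; exact h1
    exact h4
  sup U V A := (hCS F X).2.2.2 U V A

lemma shCut_ep (hXC : T_XC) (hMV : T_MV) (hCS : T_CS) (U : Opens X) (A : Sh F X) :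
    (shCut F X hXC hMV hCS).ep U A = ic U A := by
  have h : cutMap (le_top : U ≤ ⊤) (𝟙 A) ≫ ic ⊤ A = ic U A := by
    rw [cutMap_ic, Category.comp_id]
  exact h

variable {X}

lemma hcov {m : ℕ} {Z : ℕ → Set X} (hA : ATI m Z) (x : X) : ∃ j, x ∈ Z (j + 1) \ Z j := by
  classical
  have h : ∃ k, x ∈ Z k := ⟨m, by rw [hA.top]; trivial⟩
  have h0 := Nat.find_spec h
  rcases hk : Nat.find h with _ | j
  · rw [hk, hA.zero] at h0
    exact h0.elim
  · refine ⟨j, by rw [hk] at h0; exact h0, fun hj => ?_⟩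
    exact Nat.find_min h (m := j) (by omega) hj

/-- `TopData` for sheaves -/
noncomputable def topData [Finite F] (hXC : T_XC) (hMV : T_MV) (hCS : T_CS) (hLM : T_LM)
    (hLU : T_LU) (hCC : T_CC) (hCG : T_CG) (hCL : T_CL) (hGM : T_GM) (hS1 : T_S1) (hS2 : T_S2)
    {m : ℕ} {Z : ℕ → Set X} (hA : ATI m Z) :
    TopData.{0} X (Sh F X) hA.closed hA.mono where
  toCutSys := shCut F X hXC hMV hCS
  one := one F X
  Con N A := Cn Z N A
  con_iso N A B := by
    rintro ⟨e⟩ h j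
    exact hLM F X _ N A B e.hom (fun y _ => (isIso_iff e.hom).1 inferInstance y) (h j)
  con_mono N M hNM A h j x hx := by
    obtain ⟨V, r, s, h1, h2, h3⟩ := h j x hx
    exact ⟨V, r, s, h1, h2.trans hNM, h3⟩
  con_one j := (hLU F X _ 1 (one F X)).2.2
  con_cut N A j h := hCC F X Z hA.closed hA.mono N A j h
  con_gr N A j h := hCG F X Z hA.closed hA.mono N A j h
  con_loc N A j h hc x hx := by
    have h1 : IsIso (ic (co (X := X) hA.closed j) A) := by
      have := hc.iso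
      rwa [shCut_ep] at this
    obtain ⟨U, hU, r, hr, h2⟩ := hCL F X Z hA.closed hA.mono N A j h h1 hc.zero x hx
    refine ⟨U, hU, r, hr, ?_⟩
    rw [shCut_ep]
    exact h2
  germ N B h n V x hx := hGM F X Z N B (hcov hA) h n V x hx
  sh1 N A B hA' hB W W' O hO hW h hh hy n α hα :=
    hS1 F X Z N A B (hcov hA) hA' hB W W' O hO hW h hh hy n α hα
  sh2 N A B hA' hB W W' O _ _ h hh hy hAB :=
    hS2 F X Z N A B (hcov hA) hA' hB W W' O h hh hy hAB

lemma topData_con [Finite F] (hXC : T_XC) (hMV : T_MV) (hCS : T_CS) (hLM : T_LM)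
    (hLU : T_LU) (hCC : T_CC) (hCG : T_CG) (hCL : T_CL) (hGM : T_GM) (hS1 : T_S1) (hS2 : T_S2)
    (hTA : T_TA) {m : ℕ} {Z : ℕ → Set X} (hA : ATI m Z) (N : ℕ) (A : Sh F X)
    (h : ∀ j, IsLocalSystem F (restr F A (Z (j + 1) \ Z j)) N) :
    (topData F hXC hMV hCS hLM hLU hCC hCG hCL hGM hS1 hS2 hA).Con N A :=
  fun j => hTA F X A _ N (h j)

end Pool.Agent.H83.AT
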