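import Pool.Agent.H83.AT.Cut

/-!
Pullback and pushforward of sheaves of vector spaces, elementwise.
-/

open CategoryTheory CategoryTheory.Limits TopologicalSpace Topology Set Opposite

namespace Pool.Agent.H83.AT

open Pool.Agent.H96.AL

variable {F : Type} [Field F] {X Y Z : TopCat.{0}}

/-- the pullback functor -/
noncomputable abbrev pb (F : Type) [Field F] {X Y : TopCat.{0}} (f : Y ⟶ X) : Sh F X ⥤ Sh F Y :=
  TopCat.Sheaf.pullback (ModuleCat.{0} F) f

/-- the pushforward functor -/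
noncomputable abbrev pf (F : Type) [Field F] {X Y : TopCat.{0}} (f : Y ⟶ X) : Sh F Y ⥤ Sh F X :=
  TopCat.Sheaf.pushforward (ModuleCat.{0} F) f

/-- the adjunction -/
noncomputable abbrev pa (F : Type) [Field F] {X Y : TopCat.{0}} (f : Y ⟶ X) : pb F f ⊣ pf F f :=
  TopCat.Sheaf.pullbackPushforwardAdjunction (ModuleCat.{0} F) f

/-- preimage of an open set -/
abbrev pre (f : Y ⟶ X) (V : Opens X) : Opens Y := (Opens.map f).obj V

/-- pullback of sections -/
noncomputable def ps (f : Y ⟶ X) (A : Sh F X) (V : Opens X) :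
    Sec A V →ₗ[F] Sec ((pb F f).obj A) (pre f V) :=
  ap ((pa F f).unit.app A) V

lemma ps_rs (f : Y ⟶ X) (A : Sh F X) {U V : Opens X} (h : U ≤ V) (h' : pre f U ≤ pre f V)
    (s : Sec A V) : ps f A U (rs A h s) = rs ((pb F f).obj A) h' (ps f A V s) :=
  (rs_ap ((pa F f).unit.app A) h s).symm

lemma ps_nat (f : Y ⟶ X) {A B : Sh F X} (φ : A ⟶ B) (V : Opens X) (s : Sec A V) :
    ap ((pb F f).map φ) (pre f V) (ps f A V s) = ps f B V (ap φ V s) := by
  have h := (pa F f).unit.naturality φ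
  exact (congrArg (fun k => ap k V s) h).symm

/-- the counit on pulled back sections -/
lemma counit_ps (f : Y ⟶ X) (G : Sh F Y) (V : Opens X) (s : Sec G (pre f V)) :
    ap ((pa F f).counit.app G) (pre f V) (ps f ((pf F f).obj G) V s) = s := by
  have h := (pa F f).right_triangle_components G
  exact congrArg (fun k => ap k V s) h

/-- the morphism `f^* A → G` given by `A → f_* G` -/
noncomputable def adjUp (f : Y ⟶ X) {A : Sh F X} {G : Sh F Y} (φ : A ⟶ (pf F f).obj G) :
    (pb F f).obj A ⟶ G := ((pa F f).homEquiv A G).symm φ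

lemma adjUp_ps (f : Y ⟶ X) {A : Sh F X} {G : Sh F Y} (φ : A ⟶ (pf F f).obj G) (V : Opens X)
    (s : Sec A V) : ap (adjUp f φ) (pre f V) (ps f A V s) = ap φ V s := by
  have h : (pa F f).homEquiv A G (adjUp f φ) = φ := Equiv.apply_symm_apply _ _
  rw [Adjunction.homEquiv_unit] at h
  exact congrArg (fun k => ap k V s) h

/-- morphisms out of `f^* A` are determined by their values on pulled back sections -/
lemma pb_hom_ext (f : Y ⟶ X) {A : Sh F X} {G : Sh F Y} (φ ψ : (pb F f).obj A ⟶ G)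
    (h : ∀ V (s : Sec A V), ap φ (pre f V) (ps f A V s) = ap ψ (pre f V) (ps f A V s)) : φ = ψ := by
  apply ((pa F f).homEquiv A G).injective
  rw [Adjunction.homEquiv_unit, Adjunction.homEquiv_unit]
  apply hom_ext'
  intro V s
  exact h V s

/-- `φ` is determined on stalks: stalk version -/
lemma gm_ps_nat (f : Y ⟶ X) {A B : Sh F X} (φ : A ⟶ B) {V : Opens X} (s : Sec A V) {y : Y}
    (hy : y ∈ pre f V) : sm ((pb F f).map φ) y (gm _ hy (ps f A V s)) =
      gm _ hy (ps f B V (ap φ V s)) := by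
  rw [← gm_ap, ps_nat]

/-- pullback of germs is well defined -/
lemma gm_ps_eq (f : Y ⟶ X) (A : Sh F X) {U V : Opens X} (s : Sec A U) (t : Sec A V) {y : Y}
    (hU : f y ∈ U) (hV : f y ∈ V) (h : gm A hU s = gm A hV t) :
    gm ((pb F f).obj A) (V := pre f U) (x := y) hU (ps f A U s) =
      gm ((pb F f).obj A) (V := pre f V) (x := y) hV (ps f A V t) := by
  obtain ⟨W, hW, h1, h2, e⟩ := gm_eq A hU hV s t h
  have e1 := ps_rs f A h1 (fun y hy => h1 hy) s
  have e2 := ps_rs f A h2 (fun y hy => h2 hy) t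
  have hW' : y ∈ pre f W := hW
  rw [← gm_rs _ (U := pre f W) (fun y hy => h1 hy) hW', ← e1,
    ← gm_rs _ (U := pre f W) (V := pre f V) (fun y hy => h2 hy) hW', ← e2, e]

/-- the pullback along the identity -/
theorem pb_id (X : TopCat.{0}) : Nonempty (pb F (𝟙 X) ≅ 𝟭 (Sh F X)) := by
  have e : pf F (𝟙 X) ≅ 𝟭 (Sh F X) := Iso.refl _
  exact ⟨Adjunction.leftAdjointUniq (pa F (𝟙 X)) (Adjunction.id.ofNatIsoRight e.symm)⟩

/-- the pullback along a composite -/
theorem pb_comp (f : Y ⟶ X) (g : Z ⟶ Y) : Nonempty (pb F f ⋙ pb F g ≅ pb F (g ≫ f)) := by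
  have e : pf F g ⋙ pf F f ≅ pf F (g ≫ f) := Iso.refl _
  exact ⟨Adjunction.leftAdjointUniq ((pa F f).comp (pa F g)) ((pa F (g ≫ f)).ofNatIsoRight e.symm)⟩

end Pool.Agent.H83.AT
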