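import Pool.Agent.H83.AT.Defs

/-!
Targets of board at_modules: sheaf part of the topological half of MP_c9ef16_gt.
-/

open CategoryTheory CategoryTheory.Limits TopologicalSpace Topology Set Opposite
open CategoryTheory.Abelian (Ext)
open CategoryTheory.Abelian.Ext (mk₀)

namespace Pool.Agent.H83.AT

open Pool.Agent.H96.AL Pool.Agent.H85.AU

section em

variable {C D : Type 1} [Category.{0} C] [Category.{0} D] [Abelian C] [Abelian D]
    [HasExt.{0} C] [HasExt.{0} D] {Φ : C ⥤ D} (hΦ : Exc Φ)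

omit [HasExt.{0} C] [HasExt.{0} D] in
include hΦ in
lemma Exc.zero (A B : C) : Φ.map (0 : A ⟶ B) = 0 := by
  have := hΦ.add
  exact Φ.map_zero A B

lemma em_zero (A B : C) (n : ℕ) : em hΦ (0 : Ext.{0} A B n) = 0 := by
  have := hΦ.add
  have := hΦ.lim
  have := hΦ.colim
  exact Ext.mapExactFunctor_zero Φ A B n

lemma em_mk₀ {A B : C} (f : A ⟶ B) : em hΦ (mk₀ f : Ext.{0} A B 0) = mk₀ (Φ.map f) := by
  have := hΦ.add
  have := hΦ.lim
  have := hΦ.colim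
  exact Ext.mapExactFunctor_mk₀ Φ f

lemma em_comp {A B E : C} {p q r : ℕ} (α : Ext.{0} A B p) (β : Ext.{0} B E q) (h : p + q = r) :
    em hΦ (α.comp β h) = (em hΦ α).comp (em hΦ β) h := by
  have := hΦ.add
  have := hΦ.lim
  have := hΦ.colim
  exact Ext.mapExactFunctor_comp Φ α β h

omit [HasExt.{0} C] [HasExt.{0} D] in
include hΦ in
lemma Exc.shortExact {A B E : C} {f : A ⟶ B} {g : B ⟶ E} {w : f ≫ g = 0}
    (h : (ShortComplex.mk f g w).ShortExact) (w' : Φ.map f ≫ Φ.map g = 0) :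
    (ShortComplex.mk (Φ.map f) (Φ.map g) w').ShortExact := by
  have := hΦ.add
  have := hΦ.lim
  have := hΦ.colim
  exact h.map_of_exact Φ

lemma em_extClass {A B E : C} {f : A ⟶ B} {g : B ⟶ E} {w : f ≫ g = 0}
    (h : (ShortComplex.mk f g w).ShortExact) (w' : Φ.map f ≫ Φ.map g = 0)
    (h' : (ShortComplex.mk (Φ.map f) (Φ.map g) w').ShortExact) :
    em hΦ (h.extClass : Ext.{0} E A 1) = h'.extClass := by
  have := hΦ.add
  have := hΦ.lim
  have := hΦ.colim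
  exact Ext.mapExactFunctor_extClass Φ h

end em

/-! ### A. stalks and exactness -/

/-- PS: stalks of the pullback -/
def T_PS : Prop := ∀ (F : Type) [Field F] (X Y : TopCat.{0}) (f : Y ⟶ X) (A : Sh F X) (y : Y),
  Function.Bijective (sg f A y)

/-- SP: stalks of the pushforward from an open subset -/
def T_SP : Prop := ∀ (F : Type) [Field F] (X : TopCat.{0}) (U : Opens X) (G : Sh F (osp U))
  (y : osp U), Function.Bijective (sp (inc U) G y)

/-- EX: exactness criterion -/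
def T_EX : Prop := ∀ (F : Type) [Field F] (X Y : TopCat.{0}) (Φ : Sh F X ⥤ Sh F Y),
  StalkLike Φ → Exc Φ

/-- PX: pullbacks are exact -/
def T_PX : Prop := ∀ (F : Type) [Field F] (X Y : TopCat.{0}) (f : Y ⟶ X), Exc (pb F f)

/-- XC: `A ↦ A_U` is exact -/
def T_XC : Prop := ∀ (F : Type) [Field F] (X : TopCat.{0}) (U : Opens X), Exc ((cut F X).obj U)

/-- XL: extension by zero is exact -/
def T_XL : Prop := ∀ (F : Type) [Field F] (X : TopCat.{0}) (U : Opens X), Exc (lj F U)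

/-- UI: `A_U → (j_* j^* A)_U` is an isomorphism -/
def T_UI : Prop := ∀ (F : Type) [Field F] (X : TopCat.{0}) (U : Opens X) (A : Sh F X),
  IsIso (cutMap (le_refl U) (A := A) (B := (pf F (inc U)).obj ((pb F (inc U)).obj A))
    ((pa F (inc U)).unit.app A))

/-- NI: `A_U` is the extension by zero of the restriction -/
def T_NI : Prop := ∀ (F : Type) [Field F] (X : TopCat.{0}) (U : Opens X),
  Nonempty ((cut F X).obj U ≅ pb F (inc U) ⋙ lj F U)

/-- CI: pullbacks of `A_U → A_V` and `A_U → A` if the image of `f` is contained in `U` -/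
def T_CI : Prop := ∀ (F : Type) [Field F] (X Y : TopCat.{0}) (f : Y ⟶ X) (A : Sh F X)
  (U V : Opens X) (h : U ≤ V), (∀ y, f y ∈ U) →
  IsIso ((pb F f).map (cutMap h (𝟙 A))) ∧ IsIso ((pb F f).map (ic U A))

/-- MV: Mayer-Vietoris -/
def T_MV : Prop := ∀ (F : Type) [Field F] (X : TopCat.{0}) (U V : Opens X) (A : Sh F X),
  (ShortComplex.mk (mvF (X := X) (cut F X) U V A) (mvG (X := X) (cut F X) U V A)
    (mv_zero (X := X) (cut F X) U V A)).ShortExact

/-- CS: further properties of `A_U` -/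
def T_CS : Prop := ∀ (F : Type) [Field F] (X : TopCat.{0}),
  IsIso (icN (F := F) (⊤ : Opens X)) ∧
  (∀ A : Sh F X, IsZero (cutSh (⊥ : Opens X) A)) ∧
  (∀ (U V : Opens X), U ≤ V → ∀ A : Sh F X, IsIso (cutMap (le_refl U) (ic V A))) ∧
  (∀ (U V : Opens X) (A : Sh F X),
    IsIso (cutMap (inf_le_left : U ⊓ V ≤ U) (𝟙 (cutSh V A))))

/-! ### K. the constant sheaf -/

/-- KK: stalks and universal property of constant sheaves -/
def T_KK : Prop := ∀ (F : Type) [Field F] (X : TopCat.{0}) (V : ModuleCat.{0} F),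
  (∀ (x : X) (hx : x ∈ (⊤ : Opens X)),
    Function.Bijective (fun v : V => gm (constSh F X V) hx (kc F X V v))) ∧
  ∀ (A : Sh F X) (l : V →ₗ[F] Sec A ⊤), ∃ φ : constSh F X V ⟶ A,
    ∀ v : V, ap φ ⊤ (kc F X V v) = l v

/-- KU: sections of `A` over `U` are morphisms `F_U → A` -/
def T_KU : Prop := ∀ (F : Type) [Field F] (X : TopCat.{0}) (U : Opens X) (A : Sh F X),
  Function.Bijective (fun φ : cutSh U (one F X) ⟶ A => ap φ U (eU F U))

/-! ### E. Ext -/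

/-- EI: dimension shifting -/
def T_EI : Prop := ∀ (C : Type 1) [Category.{0} C] [Abelian C] [HasExt.{0} C]
  [EnoughInjectives C] (A B : C) (n : ℕ) (e : Ext.{0} A B (n + 1)),
  ∃ (J Q : C) (f : B ⟶ J) (g : J ⟶ Q) (w : f ≫ g = 0)
    (hS : (ShortComplex.mk f g w).ShortExact) (_ : Injective J) (e' : Ext.{0} A Q n),
    e = e'.comp hS.extClass rfl

/-- EN: naturality -/
def T_EN : Prop := ∀ (C D : Type 1) [Category.{0} C] [Category.{0} D] [Abelian C] [Abelian D]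
  [HasExt.{0} C] [HasExt.{0} D] [EnoughInjectives C] (Φ Ψ : C ⥤ D) (hΦ : Exc Φ) (hΨ : Exc Ψ)
  (τ : Φ ⟶ Ψ) (A B : C) (n : ℕ) (e : Ext.{0} A B n),
  (em hΦ e).comp (mk₀ (τ.app B)) (add_zero n) = (mk₀ (τ.app A)).comp (em hΨ e) (zero_add n)

/-- EC: composite functors -/
def T_EC : Prop := ∀ (C D E : Type 1) [Category.{0} C] [Category.{0} D] [Category.{0} E]
  [Abelian C] [Abelian D] [Abelian E] [HasExt.{0} C] [HasExt.{0} D] [HasExt.{0} E]
  [EnoughInjectives C] (Φ : C ⥤ D) (Ψ : D ⥤ E) (hΦ : Exc Φ) (hΨ : Exc Ψ) (h : Exc (Φ ⋙ Ψ))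
  (A B : C) (n : ℕ) (e : Ext.{0} A B n), em h e = em hΨ (em hΦ e)

/-- E1: the identity functor -/
def T_E1 : Prop := ∀ (C : Type 1) [Category.{0} C] [Abelian C] [HasExt.{0} C]
  [EnoughInjectives C] (h : Exc (𝟭 C)) (A B : C) (n : ℕ) (e : Ext.{0} A B n), em h e = e

/-! ### V. Vietoris-Begle -/

/-- II: interval induction -/
def T_II : Prop := ∀ P : unitInterval → unitInterval → Prop,
  (∀ a b c, a ≤ b → b ≤ c → P a b → P b c → P a c) →
  (∀ t : unitInterval, ∃ J : Set unitInterval, IsOpen J ∧ t ∈ J ∧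
    ∀ a b, a ≤ b → Icc a b ⊆ J → P a b) → P 0 1

/-- TL: tube lemma -/
def T_TL : Prop := ∀ (W : TopCat.{0}) (w : W) (O : Opens (cyl W)),
  (∀ u, ((w, u) : cyl W) ∈ O) → ∃ N : Opens W, w ∈ N ∧ pre (pr W) N ≤ O

/-- GL: gluing along the fibre -/
def T_GL : Prop := ∀ (F : Type) [Field F] (W : TopCat.{0}) (G : Sh F (cyl W)) (w : W)
  (a b c : unitInterval), a ≤ b → b ≤ c → ∀ (O O' : Opens (cyl W)) (s : Sec G O) (s' : Sec G O'),
  (∀ u ∈ Icc a b, ((w, u) : cyl W) ∈ O) → (∀ u ∈ Icc b c, ((w, u) : cyl W) ∈ O') →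
  (∀ (h : ((w, b) : cyl W) ∈ O) (h' : ((w, b) : cyl W) ∈ O'), gm G h s = gm G h' s') →
  ∃ (O'' : Opens (cyl W)) (s'' : Sec G O''), (∀ u ∈ Icc a c, ((w, u) : cyl W) ∈ O'') ∧
    (∀ u ∈ Icc a b, ∀ (h : ((w, u) : cyl W) ∈ O) (h'' : ((w, u) : cyl W) ∈ O''),
      gm G h'' s'' = gm G h s) ∧
    (∀ u ∈ Icc b c, ∀ (h' : ((w, u) : cyl W) ∈ O') (h'' : ((w, u) : cyl W) ∈ O''),
      gm G h'' s'' = gm G h' s')

/-- FE: germs of fibrewise constant sheaves extend along the fibres -/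
def T_FE : Prop := ∀ (F : Type) [Field F] (W : TopCat.{0}) (G : Sh F (cyl W)), FC G → PE G

/-- FS: vanishing germs -/
def T_FS : Prop := ∀ (F : Type) [Field F] (W : TopCat.{0}) (G : Sh F (cyl W)), FC G →
  ∀ (w : W) (O : Opens (cyl W)) (s : Sec G O), (∀ u, ((w, u) : cyl W) ∈ O) →
  ∀ t t' : unitInterval, (∀ h : ((w, t) : cyl W) ∈ O, gm G h s = 0) →
    ∀ h : ((w, t') : cyl W) ∈ O, gm G h s = 0

/-- VL: lifting of sections along a fibre -/
def T_VL : Prop := ∀ (F : Type) [Field F] (W : TopCat.{0}) (A B C : Sh F (cyl W)) (f : A ⟶ B)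
  (g : B ⟶ C) (w : f ≫ g = 0), (ShortComplex.mk f g w).ShortExact → PE A →
  ∀ (N : Opens W) (x : W), x ∈ N → ∀ c : Sec C (pre (pr W) N),
    ∃ (N' : Opens W) (_ : x ∈ N') (h : N' ≤ N) (b : Sec B (pre (pr W) N')),
      ap g (pre (pr W) N') b =
        rs C (show pre (pr W) N' ≤ pre (pr W) N from fun _ hy => h hy) c

/-- VM: direct image of a short exact sequence -/
def T_VM : Prop := ∀ (F : Type) [Field F] (W : TopCat.{0}) (A B C : Sh F (cyl W)) (f : A ⟶ B)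
  (g : B ⟶ C) (w : f ≫ g = 0), (ShortComplex.mk f g w).ShortExact → PE A →
  ∀ w' : (pf F (pr W)).map f ≫ (pf F (pr W)).map g = 0,
    (ShortComplex.mk ((pf F (pr W)).map f) ((pf F (pr W)).map g) w').ShortExact

/-- QE: germs of quotients of injective sheaves are germs of global sections -/
def T_QE : Prop := ∀ (F : Type) [Field F] (X : TopCat.{0}) (B C : Sh F X) (g : B ⟶ C), Epi g →
  Injective B → ∀ (x : X) (hx : x ∈ (⊤ : Opens X)) (c : Stk C x), ∃ s : Sec C ⊤, gm C hx s = c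

/-- VC: the counit is an isomorphism for fibrewise constant sheaves -/
def T_VC : Prop := ∀ (F : Type) [Field F] (W : TopCat.{0}) (G : Sh F (cyl W)), FC G →
  IsIso ((pa F (pr W)).counit.app G)

/-- VE: surjectivity on Ext -/
def T_VE : Prop := ∀ (F : Type) [Field F] (W : TopCat.{0}) (hp : Exc (pb F (pr W)))
  (G : Sh F (cyl W)), PE G → ∀ (A : Sh F W) (n : ℕ) (β : Ext.{0} ((pb F (pr W)).obj A) G n),
  ∃ e : Ext.{0} A ((pf F (pr W)).obj G) n,
    β = (em hp e).comp (mk₀ ((pa F (pr W)).counit.app G)) (add_zero n)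

/-! ### S. homotopies -/

/-- FH: pullbacks of constructible sheaves along strict homotopies -/
def T_FH : Prop := ∀ (F : Type) [Field F] (X : TopCat.{0}) (Z : ℕ → Set X) (N : ℕ) (A : Sh F X),
  (∀ x : X, ∃ j, x ∈ Z (j + 1) \ Z j) → Cn Z N A → ∀ (T : TopCat.{0}) (H : cyl T ⟶ X),
  (∀ (w : T) (t t' : unitInterval) (j : ℕ),
    H ((w, t) : cyl T) ∈ Z j ↔ H ((w, t') : cyl T) ∈ Z j) → FC ((pb F H).obj A)

/-- HM: the map given by a strict homotopy -/
def T_HM : Prop := ∀ (X : TopCat.{0}) (Z : ℕ → Set X) (W W' : Opens X) (h : X → ℝ → X),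
  StrictHtpy Z (W : Set X) (W' : Set X) h → ∃ H : cyl (osp W) ⟶ X,
    (∀ (w : osp W) (t : unitInterval), H ((w, t) : cyl (osp W)) = h w.1 t) ∧
    it (osp W) 0 ≫ H = inc W

/-- SA: homotopies and Ext -/
def T_SA : Prop := ∀ (F : Type) [Field F] (X : TopCat.{0}) (W' O : Opens X) (hO : O ≤ W')
  (T : TopCat.{0}) (H : cyl T ⟶ X), (∀ y, H y ∈ W') →
  (∀ w : T, H ((w, 1) : cyl T) ∈ O) → ∀ (A B : Sh F X), FC ((pb F H).obj A) →
  FC ((pb F H).obj B) → ∀ (n : ℕ) (α : Ext.{0} (cutSh W' A) B n), rsE A B n hO α = 0 →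
  ∀ h0 : Exc (pb F (it T 0 ≫ H)), em h0 α = 0

/-- SB: homotopies and isomorphisms -/
def T_SB : Prop := ∀ (F : Type) [Field F] (X : TopCat.{0}) (O : Opens X)
  (T : TopCat.{0}) (H : cyl T ⟶ X), (∀ w : T, H ((w, 1) : cyl T) ∈ O) →
  ∀ (A B : Sh F X), FC ((pb F H).obj A) → FC ((pb F H).obj B) →
  Nonempty (cutSh O A ≅ cutSh O B) →
  Nonempty ((pb F (it T 0 ≫ H)).obj A ≅ (pb F (it T 0 ≫ H)).obj B)

/-- DE: descent from the open subset -/
def T_DE : Prop := ∀ (F : Type) [Field F] (X : TopCat.{0}) (W : Opens X) (A B : Sh F X),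
  (∀ (n : ℕ) (β : Ext.{0} (cutSh W A) B n) (hj : Exc (pb F (inc W))), em hj β = 0 → β = 0) ∧
  (Nonempty ((pb F (inc W)).obj A ≅ (pb F (inc W)).obj B) → Nonempty (cutSh W A ≅ cutSh W B))

/-- S1: SH1 -/
def T_S1 : Prop := ∀ (F : Type) [Field F] (X : TopCat.{0}) (Z : ℕ → Set X) (N : ℕ)
  (A B : Sh F X), (∀ x : X, ∃ j, x ∈ Z (j + 1) \ Z j) → Cn Z N A → Cn Z N B →
  ∀ (W W' O : Opens X) (hO : O ≤ W') (hW : W ≤ W') (h : X → ℝ → X),
    StrictHtpy Z (W : Set X) (W' : Set X) h → (∀ y ∈ W, h y 1 ∈ O) →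
    ∀ (n : ℕ) (α : Ext.{0} (cutSh W' A) B n), rsE A B n hO α = 0 → rsE A B n hW α = 0

/-- S2: SH2 -/
def T_S2 : Prop := ∀ (F : Type) [Field F] (X : TopCat.{0}) (Z : ℕ → Set X) (N : ℕ)
  (A B : Sh F X), (∀ x : X, ∃ j, x ∈ Z (j + 1) \ Z j) → Cn Z N A → Cn Z N B →
  ∀ (W W' O : Opens X) (h : X → ℝ → X),
    StrictHtpy Z (W : Set X) (W' : Set X) h → (∀ y ∈ W, h y 1 ∈ O) →
    Nonempty (cutSh O A ≅ cutSh O B) → Nonempty (cutSh W A ≅ cutSh W B)

/-! ### C. constructible sheaves -/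

/-- LM: local bases and morphisms -/
def T_LM : Prop := ∀ (F : Type) [Field F] (X : TopCat.{0}) (S : Set X) (N : ℕ) (A B : Sh F X)
  (φ : A ⟶ B), (∀ y ∈ S, Function.Bijective (sm φ y)) → LB S N A → LB S N B

/-- LU: local bases of `A_U`, of the zero sheaf and of the constant sheaf -/
def T_LU : Prop := ∀ (F : Type) [Field F] (X : TopCat.{0}) (S : Set X) (N : ℕ) (A : Sh F X),
  (∀ U : Opens X, S ⊆ U → LB S N A → LB S N (cutSh U A)) ∧
  ((∀ y ∈ S, ∀ g : Stk A y, g = 0) → LB S N A) ∧ LB S 1 (one F X)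

/-- CC: `A_{X \ Z j}` is constructible -/
def T_CC : Prop := ∀ (F : Type) [Field F] (X : TopCat.{0}) (Z : ℕ → Set X)
  (hZ : ∀ j, IsClosed (Z j)), Monotone Z → ∀ (N : ℕ) (A : Sh F X) (j : ℕ), Cn Z N A →
  Cn Z N (cutSh (co (X := X) hZ j) A)

/-- CG: the graded pieces are constructible -/
def T_CG : Prop := ∀ (F : Type) [Field F] (X : TopCat.{0}) (Z : ℕ → Set X)
  (hZ : ∀ j, IsClosed (Z j)) (hm : Monotone Z) (N : ℕ) (A : Sh F X) (j : ℕ), Cn Z N A →
  Cn Z N (cokernel (cutMap (co_anti (X := X) hZ hm (Nat.le_succ j)) (𝟙 A)))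

/-- PW: injections and projections of `Q^r` -/
def T_PW : Prop := ∀ (C : Type 1) [Category.{0} C] [Abelian C] (Q : C) (r : ℕ),
  ∃ (i : Fin r → (Q ⟶ pw Q r)) (p : Fin r → (pw Q r ⟶ Q)),
    (∀ a b, i a ≫ p b = if a = b then 𝟙 Q else 0) ∧ ∑ a, p a ≫ i a = 𝟙 (pw Q r)

/-- CL: local structure -/
def T_CL : Prop := ∀ (F : Type) [Field F] (X : TopCat.{0}) (Z : ℕ → Set X)
  (hZ : ∀ j, IsClosed (Z j)), Monotone Z → ∀ (N : ℕ) (A : Sh F X) (j : ℕ), Cn Z N A →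
  IsIso (ic (co (X := X) hZ j) A) → IsZero (cutSh (co (X := X) hZ (j + 1)) A) →
  ∀ x ∈ Z (j + 1) \ Z j, ∃ U : Opens X, x ∈ U ∧ ∃ r ≤ N,
    Nonempty (cutSh U A ≅ cutSh U (pw (cokernel (ic (co (X := X) hZ (j + 1)) (one F X))) r))

/-- GM: classes on the constant sheaf are locally determined by a finite datum -/
def T_GM : Prop := ∀ (F : Type) [Field F] [Finite F] (X : TopCat.{0}) (Z : ℕ → Set X) (N : ℕ)
  (B : Sh F X), (∀ x : X, ∃ j, x ∈ Z (j + 1) \ Z j) → Cn Z N B →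
  ∀ (n : ℕ) (V : Opens X), ∀ x ∈ V, ∃ (M : Type) (_ : AddCommGroup M) (_ : Finite M)
    (φ : Ext.{0} (cutSh V (one F X)) B n →+ M), ∀ α, φ α = 0 →
      ∃ O : Opens X, x ∈ O ∧ ∃ h : O ≤ V, rsE (one F X) B n h α = 0

/-- GZ: classes of positive degree on the constant sheaf are locally zero -/
def T_GZ : Prop := ∀ (F : Type) [Field F] (X : TopCat.{0}) (B : Sh F X) (n : ℕ) (V : Opens X),
  ∀ x ∈ V, ∀ α : Ext.{0} (cutSh V (one F X)) B (n + 1),
    ∃ O : Opens X, x ∈ O ∧ ∃ h : O ≤ V, rsE (one F X) B (n + 1) h α = 0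

/-- TA: local systems on a stratum have local bases -/
def T_TA : Prop := ∀ (F : Type) [Field F] (X : TopCat.{0}) (A : Sh F X) (S : Set X) (N : ℕ),
  IsLocalSystem F (restr F A S) N → LB S N A

end Pool.Agent.H83.AT
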